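import Pool.Agent.X223.EC.Nbr

/-!
# The five-cycle with a chord
-/

namespace Pool.Agent.X223.EC

/-- The covering condition of the six edges `uv, up, uq, vp, qr, rv`. -/
def validH (b : Bool × Bool × Bool × Bool × Bool × Bool) : Bool :=
  (b.1 || b.2.1 || b.2.2.1) && (b.1 || b.2.2.2.1 || b.2.2.2.2.2) && (b.2.1 || b.2.2.2.1) &&
    (b.2.2.1 || b.2.2.2.2.1) && (b.2.2.2.2.1 || b.2.2.2.2.2)

theorem validH_card : (Finset.univ.filter fun b => validH b = true).card = 26 := by decide

open Finset Classical Pool.Agent.X291.EC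

variable {V : Type*} [Fintype V] {G : SimpleGraph V}

theorem one22 (h : m22 G = 1) {x y x' y' : V} (h1 : G.Adj x y) (hx : dg G x = 2) (hy : dg G y = 2)
    (h2 : G.Adj x' y') (hx' : dg G x' = 2) (hy' : dg G y' = 2) : s(x, y) = s(x', y') := by
  rw [m22, card_eq_one] at h
  obtain ⟨e, he⟩ := h
  have hmem : ∀ {a b : V}, G.Adj a b → dg G a = 2 → dg G b = 2 → s(a, b) = e := by
    intro a b hab ha hb
    rw [← mem_singleton, ← he, mem_filter]
    refine ⟨mk_mem_E.mpr hab, ?_⟩
    intro v hv
    rw [Sym2.mem_iff] at hv
    rcases hv with rfl | rfl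
    · exact ha
    · exact hb
  rw [hmem h1 hx hy, hmem h2 hx' hy']

theorem ex22 (h : m22 G = 1) : ∃ x y, G.Adj x y ∧ dg G x = 2 ∧ dg G y = 2 := by
  rw [m22, card_eq_one] at h
  obtain ⟨e, he⟩ := h
  have : e ∈ (E G).filter fun e => ∀ v ∈ e, dg G v = 2 := by rw [he]; exact mem_singleton_self e
  rw [mem_filter] at this
  induction e using Sym2.ind with
  | _ x y => exact ⟨x, y, mk_mem_E.mp this.1, this.2 x (Sym2.mem_mk_left x y),
      this.2 y (Sym2.mem_mk_right x y)⟩

/-- The five-cycle with a chord has only 26 edge covers. -/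
theorem house_count (u v p q r : V)
    (hu : ∀ z, G.Adj u z → z = v ∨ z = p ∨ z = q) (hv : ∀ z, G.Adj v z → z = u ∨ z = p ∨ z = r)
    (hp : ∀ z, G.Adj p z → z = u ∨ z = v) (hq : ∀ z, G.Adj q z → z = u ∨ z = r)
    (hr : ∀ z, G.Adj r z → z = q ∨ z = v) (hall : ∀ z, z = u ∨ z = v ∨ z = p ∨ z = q ∨ z = r) :
    (covers G).card ≤ 26 := by
  rw [← validH_card]
  have hE : ∀ e ∈ E G, e = s(u, v) ∨ e = s(u, p) ∨ e = s(u, q) ∨ e = s(v, p) ∨ e = s(q, r) ∨
      e = s(r, v) := by
    intro e he
    induction e using Sym2.ind with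
    | _ x y =>
      rw [mk_mem_E] at he
      rcases hall x with rfl | rfl | rfl | rfl | rfl
      · rcases hu y he with rfl | rfl | rfl <;> simp
      · rcases hv y he with rfl | rfl | rfl <;> simp [Sym2.eq_swap]
      · rcases hp y he with rfl | rfl <;> simp [Sym2.eq_swap]
      · rcases hq y he with rfl | rfl <;> simp [Sym2.eq_swap]
      · rcases hr y he with rfl | rfl <;> simp [Sym2.eq_swap]
  have hloc : ∀ (x : V) (e : Sym2 V), e ∈ E G → x ∈ e → ∃ z, G.Adj x z ∧ e = s(x, z) := by
    intro x e he hx
    obtain ⟨y, rfl⟩ := Sym2.mem_iff_exists.mp hx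
    exact ⟨y, mk_mem_E.mp he, rfl⟩
  apply card_le_card_of_injOn (fun S => (decide (s(u, v) ∈ S), decide (s(u, p) ∈ S),
    decide (s(u, q) ∈ S), decide (s(v, p) ∈ S), decide (s(q, r) ∈ S), decide (s(r, v) ∈ S)))
  · intro S hS
    rw [covers, coe_filter] at hS
    obtain ⟨hSE, hcov⟩ := hS
    rw [mem_powerset] at hSE
    rw [coe_filter]
    refine ⟨mem_univ _, ?_⟩
    have key : ∀ x, ∃ z, G.Adj x z ∧ s(x, z) ∈ S := by
      intro x
      obtain ⟨e, he, hx⟩ := hcov x
      obtain ⟨z, hz, rfl⟩ := hloc x e (hSE he) hx
      exact ⟨z, hz, he⟩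
    simp only [validH, Bool.and_eq_true, Bool.or_eq_true, decide_eq_true_eq]
    refine ⟨⟨⟨⟨?_, ?_⟩, ?_⟩, ?_⟩, ?_⟩
    · obtain ⟨z, hz, h⟩ := key u
      rcases hu z hz with rfl | rfl | rfl <;> tauto
    · obtain ⟨z, hz, h⟩ := key v
      rcases hv z hz with rfl | rfl | rfl
      · left; left; rw [Sym2.eq_swap]; exact h
      · left; right; exact h
      · right; rw [Sym2.eq_swap]; exact h
    · obtain ⟨z, hz, h⟩ := key p
      rcases hp z hz with rfl | rfl
      · left; rw [Sym2.eq_swap]; exact h
      · right; rw [Sym2.eq_swap]; exact h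
    · obtain ⟨z, hz, h⟩ := key q
      rcases hq z hz with rfl | rfl
      · left; rw [Sym2.eq_swap]; exact h
      · right; exact h
    · obtain ⟨z, hz, h⟩ := key r
      rcases hr z hz with rfl | rfl
      · left; rw [Sym2.eq_swap]; exact h
      · right; exact h
  · intro S hS S' hS' heq
    rw [covers, coe_filter] at hS hS'
    have hSE := mem_powerset.mp hS.1
    have hSE' := mem_powerset.mp hS'.1
    simp only [Prod.mk.injEq, decide_eq_decide] at heq
    obtain ⟨h1, h2, h3, h4, h5, h6⟩ := heq
    ext e
    constructor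
    · intro he
      rcases hE e (hSE he) with rfl | rfl | rfl | rfl | rfl | rfl
      · exact h1.mp he
      · exact h2.mp he
      · exact h3.mp he
      · exact h4.mp he
      · exact h5.mp he
      · exact h6.mp he
    · intro he
      rcases hE e (hSE' he) with rfl | rfl | rfl | rfl | rfl | rfl
      · exact h1.mpr he
      · exact h2.mpr he
      · exact h3.mpr he
      · exact h4.mpr he
      · exact h5.mpr he
      · exact h6.mpr he

theorem house_core (hconn : G.Connected) {s : ℕ} (hn2 : nd G 2 = s)
    (hcov : (covers G).card = 3 ^ s) {u v p q q2 : V} (h22 : m22 G = 1)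
    (huv : G.Adj u v) (hdu : dg G u = 3) (hdv : dg G v = 3)
    (hoth : ∀ x, x ≠ u → x ≠ v → dg G x = 2)
    (hpq : p ≠ q) (hpv : p ≠ v) (hqv : q ≠ v) (hup : G.Adj u p) (huq : G.Adj u q)
    (hu : ∀ z, G.Adj u z → z = v ∨ z = p ∨ z = q) (hpvadj : G.Adj p v)
    (hp : ∀ z, G.Adj p z → z = u ∨ z = v) (hq2u : q2 ≠ u) (hqq2 : G.Adj q q2)
    (hq : ∀ z, G.Adj q z → z = u ∨ z = q2) (hq2v : q2 ≠ v) : False := by
  have hpu : p ≠ u := hup.ne'
  have hqu : q ≠ u := huq.ne'
  have hpqadj : ¬ G.Adj p q := fun h => by
    rcases hp q h with h | h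
    · exact hqu h
    · exact hqv h
  obtain ⟨r, hrq, hq2r, hq2⟩ := nbr2 (hoth q2 hq2u hq2v) hqq2.symm
  have hrv : r = v := by
    by_contra hrv
    by_cases hru : r = u
    · subst hru
      rcases hu q2 hq2r.symm with h | h | h
      · exact hq2v h
      · subst h; exact hpqadj hqq2.symm
      · exact hqq2.ne' h
    · have := one22 h22 hq2r (hoth q2 hq2u hq2v) (hoth r hru hrv) hqq2 (hoth q hqu hqv)
        (hoth q2 hq2u hq2v)
      rw [Sym2.eq_iff] at this
      rcases this with ⟨h, _⟩ | ⟨_, h⟩
      · exact hqq2.ne' h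
      · exact hrq h
  subst hrv
  have hpq2 : p ≠ q2 := by rintro rfl; exact hpqadj hqq2.symm
  have hv : ∀ z, G.Adj r z → z = u ∨ z = p ∨ z = q2 := by
    obtain ⟨x, y, hxy, hxu, hyu, hx, hy, hl⟩ := nbr3 hdv huv.symm
    have h1 := hl p hpvadj.symm
    have h2 := hl q2 hq2r.symm
    intro z hz
    rcases hl z hz with h | h | h
    · exact Or.inl h
    · subst h
      rcases h1 with h1 | h1 | h1
      · exact absurd h1 hpu
      · right; left; exact h1.symm
      · rcases h2 with h2 | h2 | h2
        · exact absurd h2 hq2u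
        · right; right; exact h2.symm
        · exact absurd (h1.trans h2.symm) hpq2
    · subst h
      rcases h1 with h1 | h1 | h1
      · exact absurd h1 hpu
      · rcases h2 with h2 | h2 | h2
        · exact absurd h2 hq2u
        · exact absurd (h1.trans h2.symm) hpq2
        · right; right; exact h2.symm
      · right; left; exact h1.symm
  have hall : ∀ z, z = u ∨ z = r ∨ z = p ∨ z = q ∨ z = q2 := by
    intro z
    have := closed_univ hconn ({u, r, p, q, q2} : Finset V) (x := u) (by simp) (by
      intro x hx y hxy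
      simp only [mem_insert, mem_singleton] at hx ⊢
      rcases hx with rfl | rfl | rfl | rfl | rfl
      · rcases hu y hxy with h | h | h <;> simp [h]
      · rcases hv y hxy with h | h | h <;> simp [h]
      · rcases hp y hxy with h | h <;> simp [h]
      · rcases hq y hxy with h | h <;> simp [h]
      · rcases hq2 y hxy with h | h <;> simp [h]) z
    simpa using this
  have hc := house_count u r p q q2 hu hv hp hq hq2 hall
  have hnd : nd G 2 = 3 := by
    have : (univ.filter fun x => dg G x = 2) = {p, q, q2} := by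
      ext x
      simp only [mem_filter, mem_univ, true_and, mem_insert, mem_singleton]
      constructor
      · intro hx
        rcases hall x with rfl | rfl | h
        · omega
        · omega
        · exact h
      · rintro (rfl | rfl | rfl)
        · exact hoth _ hpu hpv
        · exact hoth _ hqu hqv
        · exact hoth _ hq2u hq2v
    rw [nd, this, card_insert_of_notMem, card_pair hqq2.ne]
    rw [mem_insert, mem_singleton]
    rintro (h | h)
    · exact hpq h
    · exact hpq2 h
  rw [hnd] at hn2
  subst hn2
  rw [hcov] at hc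
  norm_num at hc

theorem house (hconn : G.Connected) {s : ℕ} (hn2 : nd G 2 = s)
    (h22 : m22 G = mhh G) (hcov : (covers G).card = 3 ^ s) {u v : V}
    (huv : G.Adj u v) (hdu : dg G u = 3) (hdv : dg G v = 3)
    (hoth : ∀ x, x ≠ u → x ≠ v → dg G x = 2) : False := by
  have hhh : mhh G = 1 := by
    rw [mhh, card_eq_one]
    refine ⟨s(u, v), ?_⟩
    ext e
    rw [mem_filter, mem_singleton]
    constructor
    · rintro ⟨he, h⟩
      induction e using Sym2.ind with
      | _ x y =>
        have hx := h x (Sym2.mem_mk_left x y)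
        have hy := h y (Sym2.mem_mk_right x y)
        have hxy := mk_mem_E.mp he
        have h1 : x = u ∨ x = v := by
          by_contra hcon
          push Not at hcon
          have := hoth x hcon.1 hcon.2
          omega
        have h2 : y = u ∨ y = v := by
          by_contra hcon
          push Not at hcon
          have := hoth y hcon.1 hcon.2
          omega
        rcases h1 with rfl | rfl <;> rcases h2 with rfl | rfl
        · exact absurd rfl hxy.ne
        · rfl
        · exact Sym2.eq_swap
        · exact absurd rfl hxy.ne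
    · rintro rfl
      refine ⟨mk_mem_E.mpr huv, ?_⟩
      intro w hw
      rw [Sym2.mem_iff] at hw
      rcases hw with rfl | rfl <;> omega
  rw [hhh] at h22
  obtain ⟨p, q, hpq, hpv, hqv, hup, huq, hu⟩ := nbr3 hdu huv
  have hpu : p ≠ u := hup.ne'
  have hqu : q ≠ u := huq.ne'
  obtain ⟨p2, hp2u, hpp2, hp⟩ := nbr2 (hoth p hpu hpv) hup.symm
  obtain ⟨q2, hq2u, hqq2, hq⟩ := nbr2 (hoth q hqu hqv) huq.symm
  by_cases hp2 : p2 = v
  · subst hp2
    by_cases hq2 : q2 = p2
    · subst hq2
      -- both neighbours go back: no edge between degree two vertices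
      have hv : ∀ z, G.Adj q2 z → z = u ∨ z = p ∨ z = q := by
        obtain ⟨x, y, hxy, hxu, hyu, hx, hy, hl⟩ := nbr3 hdv huv.symm
        have h1 := hl p hpp2.symm
        have h2 := hl q hqq2.symm
        intro z hz
        rcases hl z hz with h | h | h
        · exact Or.inl h
        · subst h
          rcases h1 with h1 | h1 | h1
          · exact absurd h1 hpu
          · right; left; exact h1.symm
          · rcases h2 with h2 | h2 | h2
            · exact absurd h2 hqu
            · right; right; exact h2.symm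
            · exact absurd (h1.trans h2.symm) hpq
        · subst h
          rcases h1 with h1 | h1 | h1
          · exact absurd h1 hpu
          · rcases h2 with h2 | h2 | h2
            · exact absurd h2 hqu
            · exact absurd (h1.trans h2.symm) hpq
            · right; right; exact h2.symm
          · right; left; exact h1.symm
      have hall : ∀ z, z = u ∨ z = q2 ∨ z = p ∨ z = q := by
        intro z
        have := closed_univ hconn ({u, q2, p, q} : Finset V) (x := u) (by simp) (by
          intro x hx y hxy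
          simp only [mem_insert, mem_singleton] at hx ⊢
          rcases hx with rfl | rfl | rfl | rfl
          · rcases hu y hxy with h | h | h <;> simp [h]
          · rcases hv y hxy with h | h | h <;> simp [h]
          · rcases hp y hxy with h | h <;> simp [h]
          · rcases hq y hxy with h | h <;> simp [h]) z
        simpa using this
      obtain ⟨x, y, hxy, hx, hy⟩ := ex22 h22
      rcases hall x with rfl | rfl | rfl | rfl
      · omega
      · omega
      · rcases hp y hxy with rfl | rfl <;> omega
      · rcases hq y hxy with rfl | rfl <;> omega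
    · exact house_core hconn hn2 hcov h22 huv hdu hdv hoth hpq hpv hqv hup huq hu hpp2 hp hq2u
        hqq2 hq hq2
  · by_cases hq2 : q2 = v
    · subst hq2
      exact house_core hconn hn2 hcov h22 huv hdu hdv hoth hpq.symm hqv hpv huq hup
        (fun z hz => by rcases hu z hz with h | h | h <;> simp [h]) hqq2 hq hp2u hpp2 hp hp2
    · have h1 := one22 h22 hpp2 (hoth p hpu hpv) (hoth p2 hp2u hp2) hqq2 (hoth q hqu hqv)
        (hoth q2 hq2u hq2)
      rw [Sym2.eq_iff] at h1
      rcases h1 with ⟨h1, _⟩ | ⟨h1, h1'⟩
      · exact hpq h1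
      · obtain ⟨x, y, hxy, hxu, hyu, hx, hy, hl⟩ := nbr3 hdv huv.symm
        have hxv : x ≠ v := hx.ne'
        have hnp : ¬ G.Adj p v := fun h => by
          rcases hp v h with h | h
          · exact huv.ne' h
          · exact hp2 h.symm
        have hnq : ¬ G.Adj q v := fun h => by
          rcases hq v h with h | h
          · exact huv.ne' h
          · exact hq2 h.symm
        obtain ⟨x2, hx2v, hxx2, hxl⟩ := nbr2 (hoth x hxu hxv) hx.symm
        have hx2u : x2 ≠ u := by
          rintro rfl
          rcases hu x hxx2.symm with h | h | h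
          · exact hxv h
          · subst h; exact hnp hx.symm
          · subst h; exact hnq hx.symm
        have h2 := one22 h22 hxx2 (hoth x hxu hxv) (hoth x2 hx2u hx2v) hpp2 (hoth p hpu hpv)
          (hoth p2 hp2u hp2)
        rw [Sym2.eq_iff] at h2
        rcases h2 with ⟨h2, _⟩ | ⟨h2, _⟩
        · subst h2; exact hnp hx.symm
        · rw [h1'] at h2; subst h2; exact hnq hx.symm

end Pool.Agent.X223.EC
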