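import Pool.Agent.X291.EC.Defs

/-!
# Degrees and neighbours
-/

namespace Pool.Agent.X223.EC

open Finset Classical Pool.Agent.X291.EC

variable {V : Type*} [Fintype V] {G : SimpleGraph V}

theorem mem_E {e : Sym2 V} : e ∈ E G ↔ e ∈ G.edgeSet := by simp [E]

theorem mk_mem_E {x y : V} : s(x, y) ∈ E G ↔ G.Adj x y := by simp [E]

theorem mem_inc' {e : Sym2 V} {v : V} : e ∈ inc G v ↔ e ∈ E G ∧ v ∈ e := by simp [inc]

/-- The neighbours. -/
noncomputable def nb (G : SimpleGraph V) (x : V) : Finset V := univ.filter fun y => G.Adj x y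

theorem mem_nb {x y : V} : y ∈ nb G x ↔ G.Adj x y := by simp [nb]

theorem inc_eq (x : V) : inc G x = (nb G x).image fun y => s(x, y) := by
  ext e
  rw [mem_inc', mem_image]
  constructor
  · rintro ⟨h1, h2⟩
    obtain ⟨y, rfl⟩ := Sym2.mem_iff_exists.mp h2
    exact ⟨y, mem_nb.mpr (mk_mem_E.mp h1), rfl⟩
  · rintro ⟨y, h1, rfl⟩
    exact ⟨mk_mem_E.mpr (mem_nb.mp h1), Sym2.mem_mk_left x y⟩

theorem dg_eq (x : V) : dg G x = (nb G x).card := by
  rw [dg, inc_eq, card_image_of_injective]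
  intro a b h
  rw [Sym2.congr_right] at h
  exact h

theorem nbr2 {x y : V} (h : dg G x = 2) (hy : G.Adj x y) :
    ∃ y', y' ≠ y ∧ G.Adj x y' ∧ ∀ z, G.Adj x z → z = y ∨ z = y' := by
  rw [dg_eq, card_eq_two] at h
  obtain ⟨a, b, hab, h⟩ := h
  have hm : ∀ z, G.Adj x z ↔ z = a ∨ z = b := fun z => by
    rw [← mem_nb, h, mem_insert, mem_singleton]
  rcases (hm y).mp hy with rfl | rfl
  · exact ⟨b, hab.symm, (hm b).mpr (Or.inr rfl), fun z hz => (hm z).mp hz⟩
  · exact ⟨a, hab, (hm a).mpr (Or.inl rfl), fun z hz => ((hm z).mp hz).symm⟩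

theorem nbr3 {x y : V} (h : dg G x = 3) (hy : G.Adj x y) :
    ∃ a b, a ≠ b ∧ a ≠ y ∧ b ≠ y ∧ G.Adj x a ∧ G.Adj x b ∧ ∀ z, G.Adj x z → z = y ∨ z = a ∨ z = b := by
  rw [dg_eq, card_eq_three] at h
  obtain ⟨a, b, c, hab, hac, hbc, h⟩ := h
  have hm : ∀ z, G.Adj x z ↔ z = a ∨ z = b ∨ z = c := fun z => by
    rw [← mem_nb, h, mem_insert, mem_insert, mem_singleton]
  rcases (hm y).mp hy with rfl | rfl | rfl
  · exact ⟨b, c, hbc, hab.symm, hac.symm, (hm b).mpr (by simp), (hm c).mpr (by simp),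
      fun z hz => (hm z).mp hz⟩
  · exact ⟨a, c, hac, hab, hbc.symm, (hm a).mpr (by simp), (hm c).mpr (by simp),
      fun z hz => by rcases (hm z).mp hz with h | h | h <;> simp [h]⟩
  · exact ⟨a, b, hab, hac, hbc, (hm a).mpr (by simp), (hm b).mpr (by simp),
      fun z hz => by rcases (hm z).mp hz with h | h | h <;> simp [h]⟩

theorem ge_two_of {x y z : V} (hy : G.Adj x y) (hz : G.Adj x z) (h : y ≠ z) : 2 ≤ dg G x := by
  rw [dg_eq]
  have : ({y, z} : Finset V) ⊆ nb G x := by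
    intro w hw
    rw [mem_insert, mem_singleton] at hw
    rcases hw with rfl | rfl
    · exact mem_nb.mpr hy
    · exact mem_nb.mpr hz
  have h2 := card_le_card this
  rwa [card_pair h] at h2

/-- A nonempty set closed under adjacency in a connected graph is everything. -/
theorem closed_univ (hconn : G.Connected) (D : Finset V) {x : V} (hx : x ∈ D)
    (hcl : ∀ x ∈ D, ∀ y, G.Adj x y → y ∈ D) (y : V) : y ∈ D := by
  obtain ⟨p⟩ := hconn.preconnected x y
  have : ∀ {a b : V} (p : G.Walk a b), a ∈ D → b ∈ D := by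
    intro a b p
    induction p with
    | nil => exact id
    | cons h p ih => exact fun ha => ih (hcl _ ha _ h)
  exact this p hx

/-- Deleting one edge. -/
theorem del_adj {u v x y : V} : (G.deleteEdges {s(u, v)}).Adj x y ↔ G.Adj x y ∧ s(x, y) ≠ s(u, v) := by
  rw [SimpleGraph.deleteEdges_adj, Set.mem_singleton_iff]

theorem del_dg_other {u v x : V} (hu : x ≠ u) (hv : x ≠ v) :
    dg (G.deleteEdges {s(u, v)}) x = dg G x := by
  rw [dg_eq, dg_eq]
  congr 1
  ext y
  rw [mem_nb, mem_nb, del_adj]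
  constructor
  · exact fun h => h.1
  · intro h
    refine ⟨h, fun h' => ?_⟩
    rw [Sym2.eq_iff] at h'
    rcases h' with ⟨h', _⟩ | ⟨h', _⟩
    · exact hu h'
    · exact hv h'

theorem del_dg_left {u v : V} (h : G.Adj u v) :
    dg (G.deleteEdges {s(u, v)}) u + 1 = dg G u := by
  rw [dg_eq, dg_eq]
  have : nb (G.deleteEdges {s(u, v)}) u = (nb G u).erase v := by
    ext y
    rw [mem_nb, mem_erase, mem_nb, del_adj]
    constructor
    · rintro ⟨h1, h2⟩
      exact ⟨fun h3 => h2 (by rw [h3]), h1⟩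
    · rintro ⟨h1, h2⟩
      refine ⟨h2, fun h3 => ?_⟩
      rw [Sym2.congr_right] at h3
      exact h1 h3
  rw [this, card_erase_add_one (mem_nb.mpr h)]

theorem del_dg_right {u v : V} (h : G.Adj u v) :
    dg (G.deleteEdges {s(u, v)}) v + 1 = dg G v := by
  have := del_dg_left h.symm
  rwa [Sym2.eq_swap] at this

end Pool.Agent.X223.EC
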