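import Pool.Agent.X223.EC.House

/-!
# The structure of a graph with `m = 2 n_2` without an edge cover of fewer than `m / 2` edges
-/

namespace Pool.Agent.X223.EC

open Finset Classical Pool.Agent.X291.EC

variable {V : Type*} [Fintype V] {G : SimpleGraph V}

/-- A pendant cycle through `u`, attached by the edge `uv`. -/
def Pend (G : SimpleGraph V) (u v : V) (D : Finset V) : Prop :=
  G.Adj u v ∧ dg G u = 3 ∧ 3 ≤ dg G v ∧ u ∈ D ∧ v ∉ D ∧ (∀ x ∈ D, x ≠ u → dg G x = 2) ∧
    (∀ x ∈ D, ∀ y, G.Adj x y → y ∈ D ∨ (x = u ∧ y = v))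

/-- The conclusion of the splitting lemma. -/
def SplitHyp (V : Type*) [Fintype V] : Prop :=
  ∀ H : SimpleGraph V, (∀ v, 2 ≤ dg H v) →
    (∃ R ⊆ E H, Cov R ∧ Cov (E H \ R)) ∨
    ∃ D : Finset V, Odd D.card ∧ (∀ x ∈ D, dg H x = 2) ∧ ∀ x ∈ D, ∀ y, H.Adj x y → y ∈ D

theorem pend_of (hconn : G.Connected) {u v : V} {D : Finset V} (huv : G.Adj u v)
    (hv : 3 ≤ dg G v) (hu : 3 ≤ dg G u)
    (hD2 : ∀ x ∈ D, dg (G.deleteEdges {s(u, v)}) x = 2)
    (hDcl : ∀ x ∈ D, ∀ y, (G.deleteEdges {s(u, v)}).Adj x y → y ∈ D)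
    (huD : u ∈ D) (hvD : v ∉ D) : Pend G u v D := by
  refine ⟨huv, ?_, hv, huD, hvD, ?_, ?_⟩
  · have := del_dg_left huv
    rw [hD2 u huD] at this
    omega
  · intro x hx hxu
    have hxv : x ≠ v := by rintro rfl; exact hvD hx
    rw [← del_dg_other hxu hxv]
    exact hD2 x hx
  · intro x hx y hxy
    by_cases h : s(x, y) = s(u, v)
    · right
      rw [Sym2.eq_iff] at h
      rcases h with h | ⟨h, _⟩
      · exact h
      · subst h; exact absurd hx hvD
    · left; exact hDcl x hx y (del_adj.mpr ⟨hxy, h⟩)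

theorem edge_case (hconn : G.Connected) (hdeg : ∀ v, 2 ≤ dg G v) {s : ℕ} (hm : (E G).card = 2 * s)
    (hrho : ∀ S ∈ covers G, s ≤ S.card) (hsplit : SplitHyp V) {u v : V} (huv : G.Adj u v)
    (hu : 3 ≤ dg G u) (hv : 3 ≤ dg G v) :
    (∃ D, Pend G u v D) ∨ (∃ D, Pend G v u D) ∨
      (dg G u = 3 ∧ dg G v = 3 ∧ ∀ x, x ≠ u → x ≠ v → dg G x = 2) := by
  set H := G.deleteEdges {s(u, v)} with hH
  have hEH : E H = (E G).erase s(u, v) := by
    ext e
    induction e using Sym2.ind with
    | _ x y =>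
      rw [mem_erase, mk_mem_E, mk_mem_E, hH, del_adj]
      exact and_comm
  have hcardH : (E H).card + 1 = 2 * s := by
    rw [hEH, card_erase_add_one (mk_mem_E.mpr huv), hm]
  have hdegH : ∀ x, 2 ≤ dg H x := by
    intro x
    by_cases hxu : x = u
    · subst hxu
      have := del_dg_left huv
      rw [← hH] at this
      omega
    · by_cases hxv : x = v
      · subst hxv
        have := del_dg_right huv
        rw [← hH] at this
        omega
      · rw [hH, del_dg_other hxu hxv]; exact hdeg x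
  rcases hsplit H hdegH with ⟨R, hR, hc1, hc2⟩ | ⟨D, hodd, hD2, hDcl⟩
  · exfalso
    have hsub : E H ⊆ E G := by rw [hEH]; exact erase_subset _ _
    have h1 := hrho R (by rw [covers, mem_filter, mem_powerset]; exact ⟨hR.trans hsub, hc1⟩)
    have h2 := hrho (E H \ R) (by
      rw [covers, mem_filter, mem_powerset]; exact ⟨sdiff_subset.trans hsub, hc2⟩)
    have h3 := card_sdiff_add_card_eq_card hR
    omega
  · have hne : D.Nonempty := by
      rw [nonempty_iff_ne_empty]
      rintro rfl
      simp at hodd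
    by_cases huD : u ∈ D
    · by_cases hvD : v ∈ D
      · right; right
        have hcl : ∀ x ∈ D, ∀ y, G.Adj x y → y ∈ D := by
          intro x hx y hxy
          by_cases h : s(x, y) = s(u, v)
          · rw [Sym2.eq_iff] at h
            rcases h with ⟨_, rfl⟩ | ⟨_, rfl⟩
            · exact hvD
            · exact huD
          · exact hDcl x hx y (del_adj.mpr ⟨hxy, h⟩)
        have hall := closed_univ hconn D huD hcl
        refine ⟨?_, ?_, ?_⟩
        · have := del_dg_left huv
          rw [← hH, hD2 u huD] at this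
          omega
        · have := del_dg_right huv
          rw [← hH, hD2 v hvD] at this
          omega
        · intro x hxu hxv
          rw [← del_dg_other (G := G) hxu hxv]
          exact hD2 x (hall x)
      · left
        exact ⟨D, pend_of hconn huv hv hu hD2 hDcl huD hvD⟩
    · by_cases hvD : v ∈ D
      · right; left
        have e : G.deleteEdges {s(v, u)} = H := by rw [hH, Sym2.eq_swap]
        refine ⟨D, pend_of hconn huv.symm hu hv ?_ ?_ hvD huD⟩
        · rw [e]; exact hD2
        · rw [e]; exact hDcl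
      · exfalso
        have hcl : ∀ x ∈ D, ∀ y, G.Adj x y → y ∈ D := by
          intro x hx y hxy
          apply hDcl x hx y
          rw [hH, del_adj]
          refine ⟨hxy, fun h => ?_⟩
          rw [Sym2.eq_iff] at h
          rcases h with ⟨h, _⟩ | ⟨h, _⟩
          · subst h; exact huD hx
          · subst h; exact hvD hx
        obtain ⟨x, hx⟩ := hne
        exact huD (closed_univ hconn D hx hcl u)

/-- The conclusion of the counting lemma. -/
def CountHyp (G : SimpleGraph V) : Prop :=
  ∀ (U : Finset V) (a b t : V → V),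
    (∀ u ∈ U, G.Adj u (a u) ∧ G.Adj u (b u) ∧ G.Adj (a u) (b u) ∧ G.Adj u (t u) ∧ dg G u = 3 ∧
      dg G (a u) = 2 ∧ dg G (b u) = 2 ∧ t u ≠ a u ∧ t u ≠ b u ∧ 3 ≤ dg G (t u)) →
    (∀ e ∈ E G, (∃ u ∈ U, e = s(u, a u) ∨ e = s(u, b u) ∨ e = s(a u, b u) ∨ e = s(u, t u)) ∨
      ∃ w ∈ e, dg G w = 2 ∧ ∀ u ∈ U, w ≠ a u ∧ w ≠ b u) →
    (∃ w, 3 ≤ dg G w ∧ w ∉ U) → (covers G).card < 3 ^ nd G 2

theorem structure_false (hconn : G.Connected) (hdeg : ∀ v, 2 ≤ dg G v) (s : ℕ)
    (hm : (E G).card = 2 * s) (hn2 : nd G 2 = s) (h22 : m22 G = mhh G)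
    (hrho : ∀ S ∈ covers G, s ≤ S.card) (hcov : (covers G).card = 3 ^ s)
    (hsplit : SplitHyp V) (hcount : CountHyp G) : False := by
  have hV : Nonempty V := hconn.nonempty
  -- every edge between vertices of degree at least 3 carries a pendant cycle
  have hedge : ∀ u v, G.Adj u v → 3 ≤ dg G u → 3 ≤ dg G v →
      (∃ D, Pend G u v D) ∨ (∃ D, Pend G v u D) := by
    intro u v huv hu hv
    rcases edge_case hconn hdeg hm hrho hsplit huv hu hv with h | h | ⟨h1, h2, h3⟩
    · exact Or.inl h
    · exact Or.inr h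
    · exact absurd (house hconn hn2 h22 hcov huv h1 h2 h3) id
  set U : Finset V := univ.filter fun u => ∃ v D, Pend G u v D with hU
  have hdata : ∀ u ∈ U, ∃ (t : V) (D : Finset V) (a b a' b' : V), Pend G u t D ∧ a ≠ b ∧ a ≠ t ∧
      b ≠ t ∧ G.Adj u a ∧ G.Adj u b ∧ (∀ z, G.Adj u z → z = t ∨ z = a ∨ z = b) ∧ a ∈ D ∧ b ∈ D ∧
      dg G a = 2 ∧ dg G b = 2 ∧ a' ≠ u ∧ G.Adj a a' ∧ (∀ z, G.Adj a z → z = u ∨ z = a') ∧ a' ∈ D ∧
      dg G a' = 2 ∧ b' ≠ u ∧ G.Adj b b' ∧ (∀ z, G.Adj b z → z = u ∨ z = b') ∧ b' ∈ D ∧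
      dg G b' = 2 := by
    intro u hu
    obtain ⟨t, D, hP⟩ := (mem_filter.mp hu).2
    obtain ⟨hut, hdu, hdt, huD, htD, hD2, hDcl⟩ := hP
    obtain ⟨a, b, hab, hat, hbt, hua, hub, hl⟩ := nbr3 hdu hut
    have haD : a ∈ D := by
      rcases hDcl u huD a hua with h | ⟨_, h⟩
      · exact h
      · exact absurd h hat
    have hbD : b ∈ D := by
      rcases hDcl u huD b hub with h | ⟨_, h⟩
      · exact h
      · exact absurd h hbt
    have hda := hD2 a haD hua.ne'
    have hdb := hD2 b hbD hub.ne'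
    obtain ⟨a', ha'u, haa', hla⟩ := nbr2 hda hua.symm
    obtain ⟨b', hb'u, hbb', hlb⟩ := nbr2 hdb hub.symm
    have ha'D : a' ∈ D := by
      rcases hDcl a haD a' haa' with h | ⟨h, _⟩
      · exact h
      · exact absurd h hua.ne'
    have hb'D : b' ∈ D := by
      rcases hDcl b hbD b' hbb' with h | ⟨h, _⟩
      · exact h
      · exact absurd h hub.ne'
    exact ⟨t, D, a, b, a', b', ⟨hut, hdu, hdt, huD, htD, hD2, hDcl⟩, hab, hat, hbt, hua, hub, hl,
      haD, hbD, hda, hdb, ha'u, haa', hla, ha'D, hD2 a' ha'D ha'u, hb'u, hbb', hlb, hb'D,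
      hD2 b' hb'D hb'u⟩
  choose! t D a b a' b' hP hab hat hbt hua hub hl haD hbD hda hdb ha'u haa' hla ha'D hda' hb'u hbb'
    hlb hb'D hdb' using hdata
  -- the sets are disjoint
  have hdisj : ∀ u1 ∈ U, ∀ u2 ∈ U, ∀ x, x ∈ D u1 → x ∈ D u2 → u1 = u2 := by
    intro u1 h1 u2 h2 x hx1 hx2
    by_contra hne
    obtain ⟨_, hd1, _, hu1, _, h12, h1c⟩ := hP u1 h1
    obtain ⟨_, hd2, _, hu2, _, h22', h2c⟩ := hP u2 h2
    have hn1 : u1 ∉ D u2 := fun h => by
      have := h22' u1 h hne
      omega
    have hn2' : u2 ∉ D u1 := fun h => by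
      have := h12 u2 h (Ne.symm hne)
      omega
    have := closed_univ hconn (D u1 ∩ D u2) (mem_inter.mpr ⟨hx1, hx2⟩) (by
      intro y hy z hyz
      rw [mem_inter] at hy ⊢
      constructor
      · rcases h1c y hy.1 z hyz with h | ⟨h, _⟩
        · exact h
        · subst h; exact absurd hy.2 hn1
      · rcases h2c y hy.2 z hyz with h | ⟨h, _⟩
        · exact h
        · subst h; exact absurd hy.1 hn2') u1
    exact hn1 (mem_inter.mp this).2
  set EH := (E G).filter fun e => ∀ v ∈ e, 3 ≤ dg G v with hEH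
  set E2 := (E G).filter fun e => ∀ v ∈ e, dg G v = 2 with hE2
  have hmemH : ∀ x y, s(x, y) ∈ EH ↔ G.Adj x y ∧ 3 ≤ dg G x ∧ 3 ≤ dg G y := by
    intro x y
    rw [hEH, mem_filter, mk_mem_E]
    constructor
    · rintro ⟨h1, h2⟩
      exact ⟨h1, h2 x (Sym2.mem_mk_left x y), h2 y (Sym2.mem_mk_right x y)⟩
    · rintro ⟨h1, h2, h3⟩
      refine ⟨h1, fun v hv => ?_⟩
      rw [Sym2.mem_iff] at hv
      rcases hv with rfl | rfl
      · exact h2
      · exact h3
  have hmem2 : ∀ x y, s(x, y) ∈ E2 ↔ G.Adj x y ∧ dg G x = 2 ∧ dg G y = 2 := by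
    intro x y
    rw [hE2, mem_filter, mk_mem_E]
    constructor
    · rintro ⟨h1, h2⟩
      exact ⟨h1, h2 x (Sym2.mem_mk_left x y), h2 y (Sym2.mem_mk_right x y)⟩
    · rintro ⟨h1, h2, h3⟩
      refine ⟨h1, fun v hv => ?_⟩
      rw [Sym2.mem_iff] at hv
      rcases hv with rfl | rfl
      · exact h2
      · exact h3
  have hunique : ∀ u ∈ U, ∀ y, G.Adj u y → 3 ≤ dg G y → y = t u := by
    intro u hu y huy hy
    rcases hl u hu y huy with h | h | h
    · exact h
    · subst h; have := hda u hu; omega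
    · subst h; have := hdb u hu; omega
  have hsubH : EH ⊆ U.image fun u => s(u, t u) := by
    intro e he
    induction e using Sym2.ind with
    | _ x y =>
      obtain ⟨hxy, hx, hy⟩ := (hmemH x y).mp he
      rw [mem_image]
      rcases hedge x y hxy hx hy with ⟨D', h⟩ | ⟨D', h⟩
      · have hxU : x ∈ U := mem_filter.mpr ⟨mem_univ _, y, D', h⟩
        exact ⟨x, hxU, by rw [← hunique x hxU y hxy hy]⟩
      · have hyU : y ∈ U := mem_filter.mpr ⟨mem_univ _, x, D', h⟩
        exact ⟨y, hyU, by rw [← hunique y hyU x hxy.symm hx, Sym2.eq_swap]⟩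
  have hinj2 : Set.InjOn (fun u => s(a u, a' u)) (U : Set V) := by
    intro u1 h1 u2 h2 heq
    have h1' := mem_coe.mp h1
    have h2' := mem_coe.mp h2
    have heq' : s(a u1, a' u1) = s(a u2, a' u2) := heq
    rw [Sym2.eq_iff] at heq'
    apply hdisj u1 h1' u2 h2' (a u1) (haD u1 h1')
    rcases heq' with ⟨h, _⟩ | ⟨h, _⟩
    · rw [h]; exact haD u2 h2'
    · rw [h]; exact ha'D u2 h2'
  have hsub2 : (U.image fun u => s(a u, a' u)) ⊆ E2 := by
    intro e he
    rw [mem_image] at he
    obtain ⟨u, hu, rfl⟩ := he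
    exact (hmem2 _ _).mpr ⟨haa' u hu, hda u hu, hda' u hu⟩
  have hc2 : U.card ≤ E2.card := by
    rw [← card_image_of_injOn hinj2]; exact card_le_card hsub2
  have hcH : EH.card ≤ U.card := (card_le_card hsubH).trans card_image_le
  have hEE : E2.card = EH.card := h22
  have himH : U.image (fun u => s(u, t u)) = EH := by
    symm
    apply eq_of_subset_of_card_le hsubH
    refine card_image_le.trans ?_
    omega
  have hinjH : Set.InjOn (fun u => s(u, t u)) (U : Set V) := by
    apply card_image_iff.mp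
    rw [himH]; omega
  have him2 : U.image (fun u => s(a u, a' u)) = E2 := by
    apply eq_of_subset_of_card_le hsub2
    rw [card_image_of_injOn hinj2]; omega
  -- the pendant cycles are triangles
  have htri : ∀ u ∈ U, a' u = b u := by
    intro u hu
    by_contra hne
    have h1 : s(b u, b' u) ∈ E2 := (hmem2 _ _).mpr ⟨hbb' u hu, hdb u hu, hdb' u hu⟩
    rw [← him2, mem_image] at h1
    obtain ⟨u2, hu2, h2⟩ := h1
    rw [Sym2.eq_iff] at h2
    have h3 : u = u2 := by
      apply hdisj u hu u2 hu2 (b u) (hbD u hu)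
      rcases h2 with ⟨h, _⟩ | ⟨_, h⟩
      · rw [← h]; exact haD u2 hu2
      · rw [← h]; exact ha'D u2 hu2
    subst h3
    rcases h2 with ⟨h, _⟩ | ⟨_, h⟩
    · exact hab u hu h
    · exact hne h
  have hfinal : (covers G).card < 3 ^ nd G 2 := by
    apply hcount U a b t
    · intro u hu
      obtain ⟨hut, hdu, hdt, _, _, _, _⟩ := hP u hu
      refine ⟨hua u hu, hub u hu, ?_, hut, hdu, hda u hu, hdb u hu, (hat u hu).symm,
        (hbt u hu).symm, hdt⟩
      rw [← htri u hu]; exact haa' u hu
    · intro e he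
      induction e using Sym2.ind with
      | _ x y =>
        rw [mk_mem_E] at he
        -- a degree two endpoint and a degree at least three endpoint
        have hmix : ∀ x y, G.Adj x y → dg G x = 2 → 3 ≤ dg G y →
            (∃ u ∈ U, s(x, y) = s(u, a u) ∨ s(x, y) = s(u, b u) ∨ s(x, y) = s(a u, b u) ∨
              s(x, y) = s(u, t u)) ∨
            ∃ w ∈ s(x, y), dg G w = 2 ∧ ∀ u ∈ U, w ≠ a u ∧ w ≠ b u := by
          intro x y hxy hx hy
          by_cases hxx : ∀ u ∈ U, x ≠ a u ∧ x ≠ b u
          · right; exact ⟨x, Sym2.mem_mk_left x y, hx, hxx⟩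
          · left
            push Not at hxx
            obtain ⟨u, hu, h⟩ := hxx
            refine ⟨u, hu, ?_⟩
            by_cases hxa : x = a u
            · subst hxa
              rcases hla u hu y hxy with h1 | h1
              · left; rw [h1, Sym2.eq_swap]
              · have := hda' u hu
                rw [← h1] at this
                omega
            · have hxb := h hxa
              subst hxb
              rcases hlb u hu y hxy with h1 | h1
              · right; left; rw [h1, Sym2.eq_swap]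
              · have := hdb' u hu
                rw [← h1] at this
                omega
        have hx2 := hdeg x
        have hy2 := hdeg y
        rcases Nat.lt_or_ge (dg G x) 3 with hx | hx <;> rcases Nat.lt_or_ge (dg G y) 3 with hy | hy
        · left
          have h1 : s(x, y) ∈ E2 := (hmem2 x y).mpr ⟨he, by omega, by omega⟩
          rw [← him2, mem_image] at h1
          obtain ⟨u, hu, h2⟩ := h1
          refine ⟨u, hu, ?_⟩
          right; right; left
          rw [← h2, htri u hu]
        · exact hmix x y he (by omega) hy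
        · rw [Sym2.eq_swap]
          exact hmix y x he.symm (by omega) hx
        · left
          have h1 : s(x, y) ∈ EH := (hmemH x y).mpr ⟨he, hx, hy⟩
          rw [← himH, mem_image] at h1
          obtain ⟨u, hu, h2⟩ := h1
          exact ⟨u, hu, by right; right; right; exact h2.symm⟩
    · by_cases hne : U.Nonempty
      · obtain ⟨u, hu⟩ := hne
        obtain ⟨hut, hdu, hdt, huD, htD, _, _⟩ := hP u hu
        refine ⟨t u, hdt, fun htU => ?_⟩
        have h1 : u = t (t u) := hunique (t u) htU u hut.symm (by omega)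
        have h2 : s(t u, t (t u)) = s(u, t u) := by rw [← h1, Sym2.eq_swap]
        have h3 : t u = u := hinjH (mem_coe.mpr htU) (mem_coe.mpr hu) h2
        exact hut.ne' h3
      · rw [not_nonempty_iff_eq_empty] at hne
        have hE20 : E2.card = 0 := by
          rw [← him2, hne]; simp
        by_contra hcon
        push Not at hcon
        have hall2 : ∀ x, dg G x = 2 := by
          intro x
          have h1 := hdeg x
          by_contra h2
          have := hcon x (by omega)
          rw [hne] at this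
          simp at this
        have h3 : E2 = E G := by
          rw [hE2, filter_eq_self]
          intro e _ v _
          exact hall2 v
        rw [h3, hm] at hE20
        have hs : s = 0 := by omega
        rw [hs, nd, card_eq_zero, filter_eq_empty_iff] at hn2
        obtain ⟨x⟩ := hV
        exact hn2 (mem_univ x) (hall2 x)
  rw [hn2, hcov] at hfinal
  exact lt_irrefl _ hfinal

end Pool.Agent.X223.EC
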